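import Mathlib

/-!
Distinct multinomial coefficients versus restricted partitions: `M(n) < p*(n)` for all large `n`.
-/

namespace Pool.Agent.Results.MP_f0b429_co.FailsEventually

open Finset

/-- `M(n)`: the number of distinct values of `n! / ∏ λ_j!`, `λ` a partition of `n`. -/
def M (n : ℕ) : ℕ :=
  ((Finset.univ : Finset n.Partition).image
    (fun l => n.factorial / (l.parts.map Nat.factorial).prod)).card

/-- `p*(n)`: partitions of `n` with every part at most `6` or a multiple of `3`. -/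
def pstar (n : ℕ) : ℕ :=
  ((Finset.univ : Finset n.Partition).filter (fun l => ∀ x ∈ l.parts, x ≤ 6 ∨ 3 ∣ x)).card

/-! ### Valuations -/

/-- The `p`-adic valuation of `∏ x!`. -/
def V (l : Multiset ℕ) (p : ℕ) : ℕ := (l.map (fun x => padicValNat p x.factorial)).sum

theorem V_eq (l : Multiset ℕ) (p : ℕ) (hp : p.Prime) :
    padicValNat p (l.map Nat.factorial).prod = V l p := by
  have : Fact p.Prime := ⟨hp⟩
  induction l using Multiset.induction_on with
  | empty => simp [V]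
  | cons a s ih =>
    have h0 : (s.map Nat.factorial).prod ≠ 0 := by
      rw [Ne, Multiset.prod_eq_zero_iff, Multiset.mem_map]
      rintro ⟨x, _, hx⟩
      exact Nat.factorial_ne_zero x hx
    rw [Multiset.map_cons, Multiset.prod_cons, padicValNat.mul (Nat.factorial_ne_zero a) h0, ih]
    simp [V]

theorem prod_eq_of_V {l l' : Multiset ℕ} (h : ∀ p, p.Prime → V l p = V l' p) :
    (l.map Nat.factorial).prod = (l'.map Nat.factorial).prod := by
  have h0 : ∀ s : Multiset ℕ, (s.map Nat.factorial).prod ≠ 0 := by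
    intro s
    rw [Ne, Multiset.prod_eq_zero_iff, Multiset.mem_map]
    rintro ⟨x, _, hx⟩
    exact Nat.factorial_ne_zero x hx
  apply Nat.eq_of_factorization_eq (h0 l) (h0 l')
  intro p
  by_cases hp : p.Prime
  · rw [Nat.factorization_def _ hp, Nat.factorization_def _ hp, V_eq l p hp, V_eq l' p hp, h p hp]
  · rw [Nat.factorization_eq_zero_of_not_prime _ hp, Nat.factorization_eq_zero_of_not_prime _ hp]

theorem val_anti {p q : ℕ} (hp : p.Prime) (hq : q.Prime) (h : q ≤ p) (x : ℕ) :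
    padicValNat p x.factorial ≤ padicValNat q x.factorial := by
  have : Fact p.Prime := ⟨hp⟩
  have : Fact q.Prime := ⟨hq⟩
  rw [padicValNat_factorial (p := p) (n := x) (b := x + 1)
      (Nat.lt_succ_of_le (Nat.log_le_self p x)),
    padicValNat_factorial (p := q) (n := x) (b := x + 1)
      (Nat.lt_succ_of_le (Nat.log_le_self q x))]
  apply Finset.sum_le_sum
  intro i _
  exact Nat.div_le_div_left (Nat.pow_le_pow_left h i) (pow_pos hq.pos i)

theorem V_anti (l : Multiset ℕ) {p q : ℕ} (hp : p.Prime) (hq : q.Prime) (h : q ≤ p) :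
    V l p ≤ V l q :=
  Multiset.sum_map_le_sum_map _ _ fun x _ => val_anti hp hq h x

theorem V_bound (l : Multiset ℕ) {p : ℕ} (hp : p.Prime) : p * V l p ≤ 2 * l.sum := by
  have : Fact p.Prime := ⟨hp⟩
  have h1 : ∀ x, p * padicValNat p x.factorial ≤ 2 * x := by
    intro x
    have h2 := sub_one_mul_padicValNat_factorial (p := p) x
    have h3 : (p - 1) * padicValNat p x.factorial ≤ x := by omega
    have h4 : p ≤ 2 * (p - 1) := by have := hp.two_le; omega
    calc p * padicValNat p x.factorial ≤ 2 * (p - 1) * padicValNat p x.factorial :=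
          Nat.mul_le_mul_right _ h4
      _ = 2 * ((p - 1) * padicValNat p x.factorial) := by ring
      _ ≤ 2 * x := Nat.mul_le_mul_left 2 h3
  induction l using Multiset.induction_on with
  | empty => simp [V]
  | cons a s ih =>
    have : V (a ::ₘ s) p = padicValNat p a.factorial + V s p := by simp [V]
    rw [this, Multiset.sum_cons, mul_add, mul_add]
    exact add_le_add (h1 a) ih

/-! ### Counting antitone functions -/

/-- Antitone functions `Fin L → Fin L`: at most `4^L`. -/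
theorem card_anti (L : ℕ) : ((Finset.univ : Finset (Fin L → Fin L)).filter
    (fun f => Antitone f)).card ≤ 4 ^ L := by
  have h0 : (range (2 * L)).powerset.card = 4 ^ L := by
    rw [Finset.card_powerset, Finset.card_range, pow_mul]; norm_num
  rw [← h0]
  have hstrict : ∀ f : Fin L → Fin L, Antitone f →
      StrictMono (fun i : Fin L => (f (Fin.rev i) : ℕ) + i) := by
    intro f hf i j hij
    have h1 : f (Fin.rev i) ≤ f (Fin.rev j) := hf (Fin.rev_le_rev.2 hij.le)
    have h2 : (f (Fin.rev i) : ℕ) ≤ f (Fin.rev j) := h1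
    have h3 : (i : ℕ) < j := hij
    simp only
    omega
  apply Finset.card_le_card_of_injOn
    (fun f => Finset.univ.image (fun i : Fin L => (f (Fin.rev i) : ℕ) + i))
  · intro f _
    rw [Finset.mem_coe, Finset.mem_powerset]
    intro x hx
    rw [Finset.mem_image] at hx
    obtain ⟨i, _, rfl⟩ := hx
    rw [Finset.mem_range]
    have := (f (Fin.rev i)).2
    have := i.2
    omega
  · intro f hf g hg hfg
    rw [Finset.mem_coe, Finset.mem_filter] at hf hg
    have h1 := hstrict f hf.2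
    have h2 := hstrict g hg.2
    have h3 : Set.range (fun i : Fin L => (f (Fin.rev i) : ℕ) + i) =
        Set.range (fun i : Fin L => (g (Fin.rev i) : ℕ) + i) := by
      have := congrArg (fun s : Finset ℕ => (s : Set ℕ)) hfg
      simpa using this
    have h4 := (StrictMono.range_inj h1 h2).1 h3
    funext i
    have h5 := congrFun h4 (Fin.rev i)
    simp only [Fin.rev_rev] at h5
    exact Fin.ext (by omega)

/-- Antitone functions on `2^k - 1` points below the hyperbola. -/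
def RR (K k : ℕ) : Finset (Fin (2 ^ k - 1) → Fin (4 ^ K)) :=
  Finset.univ.filter (fun f => Antitone f ∧
    ∀ i : Fin (2 ^ k - 1), ((i : ℕ) + 1) * (f i : ℕ) < 4 ^ K)

theorem RR_step {K k : ℕ} (hk : k < K) :
    (RR K (k + 1)).card ≤ (RR K k).card * (4 ^ (2 ^ k) * (4 ^ (K - k)) ^ (2 ^ k)) := by
  have hlen : 2 ^ (k + 1) - 1 = (2 ^ k - 1) + 2 ^ k := by
    have : 0 < 2 ^ k := by positivity
    rw [pow_succ]; omega
  have hpos : 0 < 2 ^ k := by positivity
  have h4 : 4 ^ K = 4 ^ (K - k) * 2 ^ k * 2 ^ k := by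
    have : 4 ^ K = 4 ^ (K - k) * 4 ^ k := by
      rw [← pow_add]; congr 1; omega
    rw [this, show (4 : ℕ) = 2 * 2 by norm_num, mul_pow 2 2 k]
    ring
  have hgpos : 0 < 4 ^ (K - k) := by positivity
  -- block values
  have hval : ∀ f ∈ RR K (k + 1), ∀ i : Fin (2 ^ k),
      (f ⟨2 ^ k - 1 + i, by omega⟩ : ℕ) < 4 ^ (K - k) * 2 ^ k := by
    intro f hf i
    rw [RR, Finset.mem_filter] at hf
    have h1 := hf.2.2 ⟨2 ^ k - 1 + i, by omega⟩
    simp only at h1
    have h2 : 2 ^ k * (f ⟨2 ^ k - 1 + i, by omega⟩ : ℕ) < 4 ^ (K - k) * 2 ^ k * 2 ^ k := by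
      rw [← h4]
      refine lt_of_le_of_lt ?_ h1
      apply Nat.mul_le_mul_right
      omega
    rw [mul_comm] at h2
    exact Nat.lt_of_mul_lt_mul_right h2
  have hcard : ((RR K k) ×ˢ (((Finset.univ : Finset (Fin (2 ^ k) → Fin (2 ^ k))).filter
      (fun f => Antitone f)) ×ˢ (Finset.univ : Finset (Fin (2 ^ k) → Fin (4 ^ (K - k)))))).card ≤
      (RR K k).card * (4 ^ (2 ^ k) * (4 ^ (K - k)) ^ (2 ^ k)) := by
    rw [Finset.card_product, Finset.card_product, Finset.card_univ, Fintype.card_fun,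
      Fintype.card_fin, Fintype.card_fin]
    exact Nat.mul_le_mul_left _ (Nat.mul_le_mul_right _ (card_anti _))
  refine le_trans ?_ hcard
  classical
  apply Finset.card_le_card_of_injOn (fun f =>
    ((fun i => f ⟨i, by omega⟩),
      ((fun i => if h : (f ⟨2 ^ k - 1 + i, by omega⟩ : ℕ) / 4 ^ (K - k) < 2 ^ k then
          ⟨(f ⟨2 ^ k - 1 + i, by omega⟩ : ℕ) / 4 ^ (K - k), h⟩ else ⟨0, hpos⟩),
        fun i => ⟨(f ⟨2 ^ k - 1 + i, by omega⟩ : ℕ) % 4 ^ (K - k), Nat.mod_lt _ hgpos⟩)))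
  · intro f hf
    have hf' := hf
    rw [Finset.mem_coe] at hf'
    have hv := hval f hf'
    rw [RR, Finset.mem_filter] at hf'
    obtain ⟨_, hanti, hhyp⟩ := hf'
    rw [Finset.mem_coe, Finset.mem_product, Finset.mem_product]
    refine ⟨?_, ?_, Finset.mem_univ _⟩
    · rw [RR, Finset.mem_filter]
      refine ⟨Finset.mem_univ _, ?_, ?_⟩
      · intro i j hij
        exact hanti hij
      · intro i
        exact hhyp ⟨i, by omega⟩
    · rw [Finset.mem_filter]
      refine ⟨Finset.mem_univ _, ?_⟩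
      intro i j hij
      have hi : (f ⟨2 ^ k - 1 + i, by omega⟩ : ℕ) / 4 ^ (K - k) < 2 ^ k :=
        Nat.div_lt_of_lt_mul (hv i)
      have hj : (f ⟨2 ^ k - 1 + j, by omega⟩ : ℕ) / 4 ^ (K - k) < 2 ^ k :=
        Nat.div_lt_of_lt_mul (hv j)
      simp only [dif_pos hi, dif_pos hj]
      rw [Fin.le_def]
      apply Nat.div_le_div_right
      have : (⟨2 ^ k - 1 + i, by omega⟩ : Fin (2 ^ (k + 1) - 1)) ≤ ⟨2 ^ k - 1 + j, by omega⟩ := by
        rw [Fin.le_def]
        have : (i : ℕ) ≤ j := hij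
        simp only
        omega
      exact hanti this
  · intro f hf g hg hfg
    have hvf := hval f hf
    have hvg := hval g hg
    simp only [Prod.mk.injEq] at hfg
    obtain ⟨e1, e2, e3⟩ := hfg
    funext i
    rcases Nat.lt_or_ge (i : ℕ) (2 ^ k - 1) with h | h
    · exact congrFun e1 ⟨i, h⟩
    · obtain ⟨d, hd⟩ := Nat.exists_eq_add_of_le h
      have hdlt : d < 2 ^ k := by have := i.2; omega
      have hi : i = ⟨2 ^ k - 1 + d, by omega⟩ := Fin.ext hd
      have a1 := congrFun e2 ⟨d, hdlt⟩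
      have a2 := congrFun e3 ⟨d, hdlt⟩
      have b1 : (f ⟨2 ^ k - 1 + d, by omega⟩ : ℕ) / 4 ^ (K - k) < 2 ^ k :=
        Nat.div_lt_of_lt_mul (hvf ⟨d, hdlt⟩)
      have b2 : (g ⟨2 ^ k - 1 + d, by omega⟩ : ℕ) / 4 ^ (K - k) < 2 ^ k :=
        Nat.div_lt_of_lt_mul (hvg ⟨d, hdlt⟩)
      simp only [dif_pos b1, dif_pos b2, Fin.mk.injEq] at a1 a2
      rw [hi]
      apply Fin.ext
      rw [← Nat.div_add_mod (f ⟨2 ^ k - 1 + d, by omega⟩ : ℕ) (4 ^ (K - k)), a1, a2,
        Nat.div_add_mod]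

theorem RR_card (K : ℕ) : ∀ k, k ≤ K →
    ∃ T, T + K + 3 = 2 ^ k * (K + 3 - k) ∧ (RR K k).card ≤ 4 ^ T := by
  intro k
  induction k with
  | zero =>
    intro _
    refine ⟨0, by simp, ?_⟩
    have : (RR K 0).card ≤ Fintype.card (Fin (2 ^ 0 - 1) → Fin (4 ^ K)) := Finset.card_le_univ _
    simpa using this
  | succ k ih =>
    intro hk
    obtain ⟨T, h1, h2⟩ := ih (by omega)
    refine ⟨T + (2 ^ k + (K - k) * 2 ^ k), ?_, ?_⟩
    · obtain ⟨d, rfl⟩ := Nat.exists_eq_add_of_le hk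
      have e1 : k + 1 + d + 3 - k = d + 4 := by omega
      have e2 : k + 1 + d - k = d + 1 := by omega
      have e3 : k + 1 + d + 3 - (k + 1) = d + 3 := by omega
      rw [e1] at h1
      rw [e2, e3, pow_succ]
      nlinarith
    · refine (RR_step (by omega)).trans ?_
      calc (RR K k).card * (4 ^ (2 ^ k) * (4 ^ (K - k)) ^ (2 ^ k))
          ≤ 4 ^ T * (4 ^ (2 ^ k) * (4 ^ (K - k)) ^ (2 ^ k)) := Nat.mul_le_mul_right _ h2
        _ = 4 ^ (T + (2 ^ k + (K - k) * 2 ^ k)) := by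
            rw [← pow_mul, ← pow_add, ← pow_add]

theorem RR_final (K : ℕ) : (RR K K).card ≤ 4 ^ (3 * 2 ^ K) := by
  obtain ⟨T, h1, h2⟩ := RR_card K K le_rfl
  refine h2.trans (Nat.pow_le_pow_right (by norm_num) ?_)
  have : K + 3 - K = 3 := by omega
  rw [this] at h1
  omega

/-! ### Prime density -/

theorem prime_density (C : ℕ) : ∃ i₀, ∀ i ≥ i₀, C * (i + 1) ≤ Nat.nth Nat.Prime i := by
  have h1 := Chebyshev.eventually_primeCounting_le (ε := 1) (by norm_num)
  have h2 : ∀ᶠ x : ℝ in Filter.atTop, (C : ℝ) * (Real.log 4 + 1) ≤ Real.log x :=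
    Real.tendsto_log_atTop.eventually_ge_atTop _
  obtain ⟨X, hX⟩ := Filter.eventually_atTop.1 (h1.and (h2.and (Filter.eventually_ge_atTop 2)))
  obtain ⟨N, hN⟩ := exists_nat_ge X
  refine ⟨N, fun i hi => ?_⟩
  set p := Nat.nth Nat.Prime i with hp
  have hpi : i + 2 ≤ p := Nat.add_two_le_nth_prime i
  have hpX : X ≤ (p : ℝ) := by
    have : (N : ℝ) ≤ p := by exact_mod_cast (by omega : N ≤ p)
    linarith
  obtain ⟨h3, h4, h5⟩ := hX p hpX
  rw [Nat.floor_natCast] at h3
  have h6 : Nat.primeCounting p = i + 1 := by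
    rw [Nat.primeCounting_eq_primeCounting'_succ, Nat.primeCounting', Nat.count_succ]
    have e1 : Nat.count Nat.Prime p = i := Nat.primeCounting'_nth_eq i
    have e2 : Nat.Prime p := Nat.prime_nth_prime i
    rw [e1, if_pos e2]
  rw [h6] at h3
  have hlog : 0 < Real.log p := Real.log_pos (by linarith)
  have hlog4 : 0 < Real.log 4 + 1 := by
    have := Real.log_pos (by norm_num : (1 : ℝ) < 4)
    linarith
  rw [le_div_iff₀ hlog] at h3
  have h7 : ((i + 1 : ℕ) : ℝ) * ((C : ℝ) * (Real.log 4 + 1)) ≤ (Real.log 4 + 1) * p := by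
    refine le_trans (mul_le_mul_of_nonneg_left h4 (by positivity)) h3
  have h8 : (C : ℝ) * ((i + 1 : ℕ) : ℝ) ≤ p := by
    have : (Real.log 4 + 1) * ((C : ℝ) * ((i + 1 : ℕ) : ℝ)) ≤ (Real.log 4 + 1) * p := by
      linarith
    exact le_of_mul_le_mul_left this hlog4
  exact_mod_cast h8

/-! ### Upper bound for `M(n)` -/

theorem card_image_le_of {α β γ : Type*} [DecidableEq β] [DecidableEq γ] (s : Finset α)
    (F : α → β) (d : α → γ) (h : ∀ x ∈ s, ∀ y ∈ s, d x = d y → F x = F y) :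
    (s.image F).card ≤ (s.image d).card := by
  apply Finset.card_le_card_of_forall_subsingleton
    (fun y c => ∃ x ∈ s, F x = y ∧ d x = c)
  · intro y hy
    obtain ⟨x, hx, hxy⟩ := Finset.mem_image.1 hy
    exact ⟨d x, Finset.mem_image_of_mem d hx, x, hx, hxy, rfl⟩
  · rintro c _ y ⟨_, x, hx, hxy, hxc⟩ y' ⟨_, x', hx', hxy', hxc'⟩
    rw [← hxy, ← hxy']
    exact h x hx x' hx' (hxc.trans hxc'.symm)

/-- The flattened sequence of valuations at the primes. -/
noncomputable def mu (i₀ : ℕ) (l : Multiset ℕ) (i : ℕ) : ℕ := V l (Nat.nth Nat.Prime (max i i₀))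

theorem mu_anti (i₀ : ℕ) (l : Multiset ℕ) : Antitone (mu i₀ l) := by
  intro i j hij
  apply V_anti l (Nat.prime_nth_prime _) (Nat.prime_nth_prime _)
  exact (Nat.nth_monotone Nat.infinite_setOfPred_prime) (max_le_max_right i₀ hij)

theorem mu_hyp {n K i₀ : ℕ} (hi : ∀ i ≥ i₀, 2 ^ 15 * (i + 1) ≤ Nat.nth Nat.Prime i)
    (hK : n < 2 ^ 14 * 4 ^ K) {l : Multiset ℕ} (hl : l.sum = n) (i : ℕ) :
    (i + 1) * mu i₀ l i < 4 ^ K := by
  have h1 := V_bound l (Nat.prime_nth_prime (max i i₀))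
  have h2 := hi (max i i₀) (le_max_right _ _)
  have h3 : 2 ^ 15 * (i + 1) ≤ Nat.nth Nat.Prime (max i i₀) :=
    (Nat.mul_le_mul_left _ (by have := le_max_left i i₀; omega)).trans h2
  have h4 : 2 ^ 15 * (i + 1) * mu i₀ l i ≤ 2 * l.sum :=
    (Nat.mul_le_mul_right _ h3).trans h1
  rw [hl] at h4
  have h5 : 2 ^ 15 * ((i + 1) * mu i₀ l i) < 2 ^ 15 * 4 ^ K := by
    rw [← mul_assoc]
    refine lt_of_le_of_lt h4 ?_
    omega
  exact Nat.lt_of_mul_lt_mul_left h5

/-- The conjugate sequence. -/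
noncomputable def col (i₀ : ℕ) (l : Multiset ℕ) (j : ℕ) : ℕ := sInf {i | mu i₀ l i ≤ j}

section

variable {n K i₀ : ℕ} (hi : ∀ i ≥ i₀, 2 ^ 15 * (i + 1) ≤ Nat.nth Nat.Prime i)
  (hK : n < 2 ^ 14 * 4 ^ K)

include hi hK

theorem col_nonempty {l : Multiset ℕ} (hl : l.sum = n) (j : ℕ) :
    {i | mu i₀ l i ≤ j}.Nonempty := by
  refine ⟨4 ^ K, ?_⟩
  have := mu_hyp hi hK hl (4 ^ K)
  have h0 : mu i₀ l (4 ^ K) = 0 := by
    by_contra h
    have h1 : 1 ≤ mu i₀ l (4 ^ K) := Nat.one_le_iff_ne_zero.2 h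
    nlinarith
  rw [Set.mem_ofPred_eq, h0]
  exact Nat.zero_le j

theorem col_iff {l : Multiset ℕ} (hl : l.sum = n) (i j : ℕ) :
    col i₀ l j ≤ i ↔ mu i₀ l i ≤ j := by
  constructor
  · intro h
    exact (mu_anti i₀ l h).trans (Nat.sInf_mem (col_nonempty hi hK hl j))
  · intro h
    exact Nat.sInf_le h

theorem col_hyp {l : Multiset ℕ} (hl : l.sum = n) (j : ℕ) : (j + 1) * col i₀ l j < 4 ^ K := by
  rcases Nat.eq_zero_or_pos (col i₀ l j) with h | h
  · rw [h]; positivity
  · obtain ⟨c, hc⟩ := Nat.exists_eq_add_of_le' h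
    have h1 : ¬ mu i₀ l c ≤ j := by
      rw [← col_iff hi hK hl]; omega
    have h2 := mu_hyp hi hK hl c
    rw [hc]
    calc (j + 1) * (c + 1) ≤ mu i₀ l c * (c + 1) := Nat.mul_le_mul_right _ (by omega)
      _ = (c + 1) * mu i₀ l c := mul_comm _ _
      _ < 4 ^ K := h2

theorem col_anti {l : Multiset ℕ} (hl : l.sum = n) : Antitone (col i₀ l) := by
  intro j j' hjj
  rw [col_iff hi hK hl]
  have := (col_iff hi hK hl (col i₀ l j) j).1 le_rfl
  exact this.trans hjj

theorem M_le : M n ≤ (n + 1) ^ i₀ * (4 ^ (3 * 2 ^ K) * 4 ^ (3 * 2 ^ K)) := by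
  have hmu : ∀ (l : n.Partition) (i : ℕ), mu i₀ l.parts i < 4 ^ K := by
    intro l i
    have := mu_hyp hi hK l.parts_sum i
    nlinarith [Nat.zero_le (i * mu i₀ l.parts i)]
  have hcol : ∀ (l : n.Partition) (j : ℕ), col i₀ l.parts j < 4 ^ K := by
    intro l j
    have := col_hyp hi hK l.parts_sum j
    nlinarith [Nat.zero_le (j * col i₀ l.parts j)]
  have hV : ∀ (l : n.Partition) (i : ℕ), V l.parts (Nat.nth Nat.Prime i) < n + 1 := by
    intro l i
    have h1 := V_bound l.parts (Nat.prime_nth_prime i)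
    rw [l.parts_sum] at h1
    have h2 := (Nat.prime_nth_prime i).two_le
    nlinarith
  let d : n.Partition → (Fin i₀ → Fin (n + 1)) ×
      ((Fin (2 ^ K - 1) → Fin (4 ^ K)) × (Fin (2 ^ K - 1) → Fin (4 ^ K))) := fun l =>
    (fun i => ⟨V l.parts (Nat.nth Nat.Prime i), hV l i⟩,
      (fun i => ⟨mu i₀ l.parts i, hmu l i⟩, fun j => ⟨col i₀ l.parts j, hcol l j⟩))
  have h1 : M n ≤ ((Finset.univ : Finset n.Partition).image d).card := by
    apply card_image_le_of
    intro l _ l' _ hd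
    simp only [d, Prod.mk.injEq] at hd
    obtain ⟨e1, e2, e3⟩ := hd
    have key : ∀ i, mu i₀ l.parts i = mu i₀ l'.parts i := by
      intro i
      rcases Nat.lt_or_ge i (2 ^ K - 1) with h | h
      · have := congrFun e2 ⟨i, h⟩
        simpa using this
      · have iff : ∀ j, mu i₀ l.parts i ≤ j ↔ mu i₀ l'.parts i ≤ j := by
          intro j
          rcases Nat.lt_or_ge j (2 ^ K - 1) with hj | hj
          · have := congrFun e3 ⟨j, hj⟩
            simp only [Fin.mk.injEq] at this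
            rw [← col_iff hi hK l.parts_sum, ← col_iff hi hK l'.parts_sum, this]
          · have bound : ∀ l : n.Partition, mu i₀ l.parts i ≤ j := by
              intro l
              have h2 := mu_hyp hi hK l.parts_sum i
              by_contra hcon
              have h3 : 2 ^ K ≤ mu i₀ l.parts i := by omega
              have h4 : 2 ^ K ≤ i + 1 := by omega
              have h5 : 2 ^ K * 2 ^ K ≤ (i + 1) * mu i₀ l.parts i := Nat.mul_le_mul h4 h3
              have h6 : 2 ^ K * 2 ^ K = 4 ^ K := by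
                rw [← mul_pow]; norm_num
              omega
            exact ⟨fun _ => bound l', fun _ => bound l⟩
        exact le_antisymm ((iff _).2 le_rfl) ((iff _).1 le_rfl)
    have hprod : (l.parts.map Nat.factorial).prod = (l'.parts.map Nat.factorial).prod := by
      apply prod_eq_of_V
      intro p hp
      have hpn : Nat.nth Nat.Prime (Nat.count Nat.Prime p) = p := Nat.nth_count hp
      rcases Nat.lt_or_ge (Nat.count Nat.Prime p) i₀ with h | h
      · have := congrFun e1 ⟨_, h⟩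
        simp only [Fin.mk.injEq] at this
        rwa [hpn] at this
      · have := key (Nat.count Nat.Prime p)
        rw [mu, mu, max_eq_left h, hpn] at this
        exact this
    rw [hprod]
  have h2 : (Finset.univ : Finset n.Partition).image d ⊆
      (Finset.univ : Finset (Fin i₀ → Fin (n + 1))) ×ˢ ((RR K K) ×ˢ (RR K K)) := by
    intro x hx
    obtain ⟨l, _, rfl⟩ := Finset.mem_image.1 hx
    rw [Finset.mem_product, Finset.mem_product]
    refine ⟨Finset.mem_univ _, ?_, ?_⟩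
    · rw [RR, Finset.mem_filter]
      refine ⟨Finset.mem_univ _, ?_, fun i => mu_hyp hi hK l.parts_sum i⟩
      intro i j hij
      exact mu_anti i₀ l.parts hij
    · rw [RR, Finset.mem_filter]
      refine ⟨Finset.mem_univ _, ?_, fun i => col_hyp hi hK l.parts_sum i⟩
      intro i j hij
      exact col_anti hi hK l.parts_sum hij
  refine h1.trans ((Finset.card_le_card h2).trans ?_)
  rw [Finset.card_product, Finset.card_product, Finset.card_univ, Fintype.card_fun,
    Fintype.card_fin, Fintype.card_fin]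
  exact Nat.mul_le_mul_left _ (Nat.mul_le_mul (RR_final K) (RR_final K))

end

/-! ### Lower bound for `p*(n)` -/

theorem pstar_ge (m n : ℕ) (h : 3 * (m * (m + 3)) ≤ 2 * n) : 2 ^ m ≤ pstar n := by
  have h0 : (Ico 2 (m + 2)).powerset.card = 2 ^ m := by
    rw [Finset.card_powerset, Nat.card_Ico]; simp
  have hs : 2 * ∑ i ∈ Ico 2 (m + 2), i = m * (m + 3) := by
    clear h h0
    induction m with
    | zero => simp
    | succ m ih =>
      rw [Finset.sum_Ico_succ_top (by omega), mul_add, ih]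
      ring
  have hsum : ∀ A ⊆ Ico 2 (m + 2), ∑ i ∈ A, 3 * i ≤ n := by
    intro A hA
    have h1 : ∑ i ∈ A, i ≤ ∑ i ∈ Ico 2 (m + 2), i := Finset.sum_le_sum_of_subset hA
    rw [← Finset.mul_sum]
    omega
  rw [← h0]
  have hpos : ∀ A ⊆ Ico 2 (m + 2), ∀ x ∈ A.val.map (fun i => 3 * i) +
      Multiset.replicate (n - ∑ i ∈ A, 3 * i) 1, 0 < x := by
    intro A hA x hx
    rw [Multiset.mem_add, Multiset.mem_map] at hx
    rcases hx with ⟨i, hi, rfl⟩ | hx
    · have := Finset.mem_Ico.1 (hA hi); omega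
    · rw [Multiset.eq_of_mem_replicate hx]; omega
  have htot : ∀ A ⊆ Ico 2 (m + 2), (A.val.map (fun i => 3 * i) +
      Multiset.replicate (n - ∑ i ∈ A, 3 * i) 1).sum = n := by
    intro A hA
    have h2 := hsum A hA
    rw [Multiset.sum_add, Multiset.sum_replicate, smul_eq_mul]
    change ∑ i ∈ A, 3 * i + _ = n
    omega
  apply Finset.card_le_card_of_injOn (fun A => if hA : A ⊆ Ico 2 (m + 2) then
    (⟨A.val.map (fun i => 3 * i) + Multiset.replicate (n - ∑ i ∈ A, 3 * i) 1,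
      fun {x} hx => hpos A hA x hx, htot A hA⟩ : n.Partition) else Nat.Partition.indiscrete n)
  · intro A hA
    rw [Finset.mem_coe, Finset.mem_powerset] at hA
    simp only [dif_pos hA]
    rw [Finset.mem_coe, Finset.mem_filter]
    refine ⟨Finset.mem_univ _, ?_⟩
    intro x hx
    simp only at hx
    rw [Multiset.mem_add, Multiset.mem_map] at hx
    rcases hx with ⟨i, hi, rfl⟩ | hx
    · right; exact Dvd.intro i rfl
    · left; rw [Multiset.eq_of_mem_replicate hx]; norm_num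
  · intro A hA B hB hAB
    rw [Finset.mem_coe, Finset.mem_powerset] at hA hB
    simp only [dif_pos hA, dif_pos hB] at hAB
    have hAB' := congrArg Nat.Partition.parts hAB
    simp only at hAB'
    ext i
    have h1 : ∀ C : Finset ℕ, ∀ k, 3 * i ∈ C.val.map (fun i => 3 * i) +
        Multiset.replicate k 1 ↔ i ∈ C := by
      intro C k
      rw [Multiset.mem_add, Multiset.mem_map]
      constructor
      · rintro (⟨j, hj, hji⟩ | h)
        · have : j = i := by omega
          rw [← this]; exact hj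
        · have := Multiset.eq_of_mem_replicate h
          omega
      · intro h; left; exact ⟨i, h, rfl⟩
    rw [← h1 A, hAB', h1 B]

/-- **Disproof of Q1** in a strong form: `M(n) < p*(n)` for all sufficiently large `n`. -/
theorem result : ∃ n₀ : ℕ, ∀ n ≥ n₀, M n < pstar n := by
  obtain ⟨i₀, hi⟩ := prime_density (2 ^ 15)
  have h1 : Filter.Tendsto (fun s : ℕ => ((s : ℝ)) ^ (8 * i₀) / (2 : ℝ) ^ s) Filter.atTop
      (nhds 0) := tendsto_pow_const_div_const_pow_of_one_lt (8 * i₀) (by norm_num)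
  have h2 : ∀ᶠ s : ℕ in Filter.atTop, ((s : ℝ)) ^ (8 * i₀) / (2 : ℝ) ^ s < 1 / 2 :=
    (tendsto_order.1 h1).2 _ (by norm_num)
  obtain ⟨s₀, hs₀⟩ := Filter.eventually_atTop.1 h2
  refine ⟨max (2 ^ 14) (s₀ * s₀), fun n hn => ?_⟩
  have hn1 : 2 ^ 14 ≤ n := (le_max_left _ _).trans hn
  have hn2 : s₀ * s₀ ≤ n := (le_max_right _ _).trans hn
  set s := Nat.sqrt n with hs
  have hss : s₀ ≤ s := Nat.le_sqrt.2 hn2
  have hs128 : 128 ≤ s := Nat.le_sqrt.2 (by omega)
  have hsn : s * s ≤ n := Nat.sqrt_le n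
  have hns : n < (s + 1) * (s + 1) := Nat.lt_succ_sqrt n
  -- choice of `K`
  have hex : ∃ K, n < 2 ^ 14 * 4 ^ K :=
    ⟨n, lt_of_lt_of_le (Nat.lt_pow_self (by norm_num : 1 < 4))
      (Nat.le_mul_of_pos_left _ (by norm_num))⟩
  obtain ⟨K, hK, hKmin⟩ : ∃ K, n < 2 ^ 14 * 4 ^ K ∧ ∀ K' < K, ¬ n < 2 ^ 14 * 4 ^ K' :=
    ⟨Nat.find hex, Nat.find_spec hex, fun K' h => Nat.find_min hex h⟩
  have hK0 : K ≠ 0 := by
    rintro rfl
    simp at hK
    omega
  obtain ⟨K', rfl⟩ := Nat.exists_eq_succ_of_ne_zero hK0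
  have hK' := not_lt.1 (hKmin K' (Nat.lt_succ_self K'))
  have h64 : 64 * 2 ^ (K' + 1) ≤ s := by
    apply Nat.le_sqrt.2
    calc 64 * 2 ^ (K' + 1) * (64 * 2 ^ (K' + 1)) = 2 ^ 14 * 4 ^ K' := by
          rw [show (4 : ℕ) = 2 * 2 by norm_num, mul_pow, pow_succ]; ring
      _ ≤ n := hK'
  have hub := M_le hi hK
  obtain ⟨m, hm⟩ : ∃ m, m = s / 2 := ⟨_, rfl⟩
  have hlb := pstar_ge m n (by
    have h3 : 2 * m ≤ s := by omega
    nlinarith)
  refine lt_of_le_of_lt hub (lt_of_lt_of_le ?_ hlb)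
  -- numerical comparison
  have h5 : (s + 1) ^ (8 * i₀) < 2 ^ (s + 1) := by
    have := hs₀ (s + 1) (by omega)
    rw [div_lt_iff₀ (by positivity)] at this
    have h6 : ((s + 1 : ℕ) : ℝ) ^ (8 * i₀) < 2 ^ (s + 1) := by
      have : (0 : ℝ) < 2 ^ (s + 1) := by positivity
      linarith
    exact_mod_cast h6
  have h6 : ((n + 1) ^ i₀ * (4 ^ (3 * 2 ^ (K' + 1)) * 4 ^ (3 * 2 ^ (K' + 1)))) ^ 4 <
      (2 ^ m) ^ 4 := by
    have e1 : ((n + 1) ^ i₀) ^ 4 ≤ (s + 1) ^ (8 * i₀) := by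
      calc ((n + 1) ^ i₀) ^ 4 ≤ (((s + 1) * (s + 1)) ^ i₀) ^ 4 :=
            Nat.pow_le_pow_left (Nat.pow_le_pow_left hns i₀) 4
        _ = (s + 1) ^ (8 * i₀) := by
            rw [← sq, ← pow_mul, ← pow_mul]; congr 1; ring
    have e2 : (4 ^ (3 * 2 ^ (K' + 1)) * 4 ^ (3 * 2 ^ (K' + 1))) ^ 4 =
        2 ^ (48 * 2 ^ (K' + 1)) := by
      rw [← pow_add, show (4 : ℕ) = 2 ^ 2 by norm_num, ← pow_mul, ← pow_mul]
      congr 1; ring
    rw [mul_pow, e2, ← pow_mul 2 m 4]
    calc ((n + 1) ^ i₀) ^ 4 * 2 ^ (48 * 2 ^ (K' + 1))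
        ≤ (s + 1) ^ (8 * i₀) * 2 ^ (48 * 2 ^ (K' + 1)) := Nat.mul_le_mul_right _ e1
      _ < 2 ^ (s + 1) * 2 ^ (48 * 2 ^ (K' + 1)) := Nat.mul_lt_mul_of_pos_right h5 (by positivity)
      _ = 2 ^ (s + 1 + 48 * 2 ^ (K' + 1)) := by rw [← pow_add]
      _ ≤ 2 ^ (m * 4) := Nat.pow_le_pow_right (by norm_num) (by omega)
  exact lt_of_pow_lt_pow_left₀ 4 (by positivity) h6

end Pool.Agent.Results.MP_f0b429_co.FailsEventually
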